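import Mathlib

/-!
Every trade in a complex Hadamard matrix of order n has at least n entries.
-/

namespace Pool.Agent.Results.MP_f34218_co.TradeSize

open Matrix Finset

/-- `H` is a complex Hadamard matrix of order `n`: all entries have modulus `1` and
`H * Hᴴ = n • 1`. -/
def IsComplexHadamard {n : ℕ} (H : Matrix (Fin n) (Fin n) ℂ) : Prop :=
  (∀ i j, ‖H i j‖ = 1) ∧ H * H.conjTranspose = (n : ℂ) • (1 : Matrix (Fin n) (Fin n) ℂ)

/-- The set of positions `T` is a trade in the complex Hadamard matrix `H`: there is a complex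
Hadamard matrix `H' ≠ H` that differs from `H` exactly at the positions in `T`. -/
def IsTrade {n : ℕ} (H : Matrix (Fin n) (Fin n) ℂ) (T : Finset (Fin n × Fin n)) : Prop :=
  ∃ H' : Matrix (Fin n) (Fin n) ℂ, IsComplexHadamard H' ∧ H' ≠ H ∧
    ∀ i j, H' i j ≠ H i j ↔ (i, j) ∈ T

theorem row_bound {n : ℕ} (H E : Matrix (Fin n) (Fin n) ℂ)
    (hH : H * H.conjTranspose = (n : ℂ) • (1 : Matrix (Fin n) (Fin n) ℂ))
    (hH1 : ∀ i j, ‖H i j‖ = 1)
    (A : Finset (Fin n)) (i : Fin n) (hE : ∀ j, j ∉ A → ∑ k, E i k * star (H j k) = 0)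
    (hne : ∃ k, E i k ≠ 0) :
    n ≤ A.card * (univ.filter fun k => E i k ≠ 0).card := by
  classical
  obtain ⟨k₀, hk₀⟩ := hne
  have hn : 0 < n := lt_of_le_of_lt (Nat.zero_le _) k₀.2
  have hnC : (n : ℂ) ≠ 0 := by exact_mod_cast hn.ne'
  have hnR : (0 : ℝ) < n := by exact_mod_cast hn
  have hH2 : H.conjTranspose * H = (n : ℂ) • (1 : Matrix (Fin n) (Fin n) ℂ) := by
    have h1 : H * ((n : ℂ)⁻¹ • H.conjTranspose) = 1 := by
      rw [Matrix.mul_smul, hH, smul_smul, inv_mul_cancel₀ hnC, one_smul]
    have h2 := (mul_eq_one_comm).1 h1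
    rw [Matrix.smul_mul] at h2
    calc H.conjTranspose * H = (n : ℂ) • ((n : ℂ)⁻¹ • (H.conjTranspose * H)) := by
          rw [smul_smul, mul_inv_cancel₀ hnC, one_smul]
      _ = _ := by rw [h2]
  -- coefficients
  set c : Fin n → ℂ := fun j => (n : ℂ)⁻¹ * ∑ k, E i k * star (H j k) with hc
  have hc0 : ∀ j, j ∉ A → c j = 0 := fun j hj => by
    show (n : ℂ)⁻¹ * ∑ k, E i k * star (H j k) = 0
    rw [hE j hj, mul_zero]
  have hexp : ∀ k, E i k = ∑ j, c j * H j k := by
    intro k
    have h3 : ∀ l k : Fin n, ∑ j, star (H j l) * H j k = if l = k then (n : ℂ) else 0 := by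
      intro l k
      have := congrFun (congrFun hH2 l) k
      simp only [Matrix.mul_apply, Matrix.conjTranspose_apply, Matrix.smul_apply,
        Matrix.one_apply, smul_eq_mul] at this
      rw [this]
      split_ifs <;> simp
    calc E i k = ∑ l, E i l * ((n : ℂ)⁻¹ * ∑ j, star (H j l) * H j k) := by
          simp only [h3]
          rw [Finset.sum_eq_single k]
          · simp only [if_true]
            rw [inv_mul_cancel₀ hnC, mul_one]
          · intro b _ hb; simp [hb]
          · intro h; exact absurd (Finset.mem_univ _) h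
      _ = ∑ l, ∑ j, (n : ℂ)⁻¹ * (E i l * star (H j l)) * H j k := by
          refine Finset.sum_congr rfl fun l _ => ?_
          rw [Finset.mul_sum, Finset.mul_sum]
          refine Finset.sum_congr rfl fun j _ => ?_
          ring
      _ = ∑ j, c j * H j k := by
          rw [Finset.sum_comm]
          refine Finset.sum_congr rfl fun j _ => ?_
          simp only [hc]
          rw [Finset.mul_sum, Finset.sum_mul]
  have hexpA : ∀ k, E i k = ∑ j ∈ A, c j * H j k := by
    intro k
    rw [hexp k]
    symm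
    apply Finset.sum_subset (Finset.subset_univ _)
    intro j _ hj
    rw [hc0 j hj, zero_mul]
  -- Parseval
  have hpars : (∑ k, ‖E i k‖ ^ 2 : ℝ) = n * ∑ j ∈ A, ‖c j‖ ^ 2 := by
    have h4 : ∀ j l : Fin n, ∑ k, H j k * star (H l k) = if j = l then (n : ℂ) else 0 := by
      intro j l
      have := congrFun (congrFun hH j) l
      simp only [Matrix.mul_apply, Matrix.conjTranspose_apply, Matrix.smul_apply,
        Matrix.one_apply, smul_eq_mul] at this
      rw [this]
      split_ifs <;> simp
    have h5 : (∑ k, E i k * star (E i k) : ℂ) = n * ∑ j ∈ A, c j * star (c j) := by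
      calc (∑ k, E i k * star (E i k) : ℂ)
          = ∑ k, ∑ j ∈ A, ∑ l ∈ A, (c j * star (c l)) * (H j k * star (H l k)) := by
            refine Finset.sum_congr rfl fun k _ => ?_
            conv_lhs => rw [hexpA k]
            rw [star_sum, Finset.sum_mul_sum]
            refine Finset.sum_congr rfl fun j _ => Finset.sum_congr rfl fun l _ => ?_
            rw [star_mul']
            ring
        _ = ∑ j ∈ A, ∑ l ∈ A, (c j * star (c l)) * ∑ k, (H j k * star (H l k)) := by
            rw [Finset.sum_comm]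
            refine Finset.sum_congr rfl fun j _ => ?_
            rw [Finset.sum_comm]
            refine Finset.sum_congr rfl fun l _ => ?_
            rw [Finset.mul_sum]
        _ = n * ∑ j ∈ A, c j * star (c j) := by
            rw [Finset.mul_sum]
            refine Finset.sum_congr rfl fun j hj => ?_
            rw [Finset.sum_eq_single j]
            · rw [h4]; simp; ring
            · intro b _ hb
              rw [h4, if_neg (Ne.symm hb), mul_zero]
            · intro h; exact absurd hj h
    have h6 : ∀ z : ℂ, z * star z = ((‖z‖ ^ 2 : ℝ) : ℂ) := by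
      intro z
      have := Complex.mul_conj z
      rw [Complex.normSq_eq_norm_sq] at this
      exact this
    simp only [h6] at h5
    exact_mod_cast h5
  have hpt : ∀ k, ‖E i k‖ ^ 2 ≤ A.card * ∑ j ∈ A, ‖c j‖ ^ 2 := by
    intro k
    have h7 : ‖E i k‖ ≤ ∑ j ∈ A, ‖c j‖ := by
      rw [hexpA k]
      refine (norm_sum_le _ _).trans (Finset.sum_le_sum fun j _ => ?_)
      rw [norm_mul, hH1, mul_one]
    calc ‖E i k‖ ^ 2 ≤ (∑ j ∈ A, ‖c j‖) ^ 2 := by gcongr
      _ ≤ A.card * ∑ j ∈ A, ‖c j‖ ^ 2 := sq_sum_le_card_mul_sum_sq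
  set S : ℝ := ∑ j ∈ A, ‖c j‖ ^ 2 with hS
  have hsupp : (∑ k, ‖E i k‖ ^ 2 : ℝ) ≤ (univ.filter fun k => E i k ≠ 0).card * (A.card * S) := by
    calc (∑ k, ‖E i k‖ ^ 2 : ℝ) = ∑ k ∈ univ.filter (fun k => E i k ≠ 0), ‖E i k‖ ^ 2 := by
          symm
          apply Finset.sum_subset (Finset.subset_univ _)
          intro k _ hk
          have : E i k = 0 := by
            by_contra h
            exact hk (Finset.mem_filter.2 ⟨Finset.mem_univ _, h⟩)
          rw [this]; simp
      _ ≤ ∑ k ∈ univ.filter (fun k => E i k ≠ 0), (A.card * S : ℝ) :=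
          Finset.sum_le_sum fun k _ => hpt k
      _ = _ := by rw [Finset.sum_const, nsmul_eq_mul]
  have hSpos : 0 < S := by
    have h8 : 0 < (∑ k, ‖E i k‖ ^ 2 : ℝ) := by
      apply Finset.sum_pos'
      · intro k _; positivity
      · exact ⟨k₀, Finset.mem_univ _, by positivity⟩
    rw [hpars] at h8
    by_contra h
    push Not at h
    have : (n : ℝ) * S ≤ 0 := mul_nonpos_of_nonneg_of_nonpos hnR.le h
    linarith
  rw [hpars] at hsupp
  have h9 : (n : ℝ) * S ≤ ((univ.filter fun k => E i k ≠ 0).card * A.card) * S := by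
    calc (n : ℝ) * S ≤ _ := hsupp
      _ = _ := by ring
  have h10 := le_of_mul_le_mul_right h9 hSpos
  have h11 : n ≤ (univ.filter fun k => E i k ≠ 0).card * A.card := by exact_mod_cast h10
  rw [mul_comm]
  exact h11

theorem result : ∀ (n : ℕ) (H : Matrix (Fin n) (Fin n) ℂ), IsComplexHadamard H →
    ∀ T : Finset (Fin n × Fin n), IsTrade H T → n ≤ T.card := by
  classical
  intro n H hH T hT
  obtain ⟨H', hH', hne, hT⟩ := hT
  set E : Matrix (Fin n) (Fin n) ℂ := H' - H with hE
  have hEne : ∀ i j, E i j ≠ 0 ↔ (i, j) ∈ T := by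
    intro i j
    rw [← hT i j, hE, Matrix.sub_apply, sub_ne_zero]
  set A : Finset (Fin n) := univ.filter fun i => ∃ k, E i k ≠ 0 with hA
  have hrow : ∀ i ∈ A, n ≤ A.card * (univ.filter fun k => E i k ≠ 0).card := by
    intro i hi
    have hi' : ∃ k, E i k ≠ 0 := (Finset.mem_filter.1 hi).2
    apply row_bound H E hH.2 hH.1 A i _ hi'
    intro j hj
    have hj0 : ∀ k, E j k = 0 := by
      intro k
      by_contra h
      exact hj (Finset.mem_filter.2 ⟨Finset.mem_univ _, k, h⟩)
    have hij : i ≠ j := fun h => hj (h ▸ hi)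
    have h1 := congrFun (congrFun hH'.2 i) j
    have h2 := congrFun (congrFun hH.2 i) j
    simp only [Matrix.mul_apply, Matrix.conjTranspose_apply, Matrix.smul_apply,
      Matrix.one_apply, smul_eq_mul, if_neg hij, mul_zero] at h1 h2
    have h3 : ∀ k, H' j k = H j k := by
      intro k
      have := hj0 k
      rw [hE, Matrix.sub_apply, sub_eq_zero] at this
      exact this
    simp only [h3] at h1
    calc ∑ k, E i k * star (H j k) = ∑ k, H' i k * star (H j k) - ∑ k, H i k * star (H j k) := by
          rw [← Finset.sum_sub_distrib]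
          refine Finset.sum_congr rfl fun k _ => ?_
          rw [hE, Matrix.sub_apply]
          ring
      _ = 0 := by rw [h1, h2, sub_zero]
  have hApos : 0 < A.card := by
    rw [Finset.card_pos]
    by_contra h
    rw [Finset.not_nonempty_iff_eq_empty] at h
    apply hne
    ext i j
    by_contra h4
    have : i ∈ A := Finset.mem_filter.2 ⟨Finset.mem_univ _, j, by
      rw [hE, Matrix.sub_apply, sub_ne_zero]; exact h4⟩
    rw [h] at this
    simp at this
  have hcard : ∑ i ∈ A, (univ.filter fun k => E i k ≠ 0).card ≤ T.card := by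
    have : (A.sigma fun i => univ.filter fun k => E i k ≠ 0).card ≤ T.card := by
      apply Finset.card_le_card_of_injOn (fun x => (x.1, x.2))
      · intro x hx
        simp only [Finset.coe_sigma, Set.mem_sigma_iff, Finset.mem_coe] at hx
        exact (hEne _ _).1 (Finset.mem_filter.1 hx.2).2
      · rintro ⟨a, b⟩ _ ⟨c, d⟩ _ h
        simp only [Prod.mk.injEq] at h
        obtain ⟨rfl, rfl⟩ := h
        rfl
    rwa [Finset.card_sigma] at this
  have hsum : A.card * n ≤ A.card * T.card := by
    calc A.card * n = ∑ i ∈ A, n := by rw [Finset.sum_const, smul_eq_mul]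
      _ ≤ ∑ i ∈ A, A.card * (univ.filter fun k => E i k ≠ 0).card := Finset.sum_le_sum hrow
      _ = A.card * ∑ i ∈ A, (univ.filter fun k => E i k ≠ 0).card := by rw [Finset.mul_sum]
      _ ≤ A.card * T.card := Nat.mul_le_mul_left _ hcard
  exact Nat.le_of_mul_le_mul_left hsum hApos

end Pool.Agent.Results.MP_f34218_co.TradeSize
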